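import Mathlib
import Pool.Graph.R_seed8.H524R3.Defs
import Pool.Graph.R_seed8.H524R3.ExpDefs
import Pool.Agent.H905.WG.Defs
import Pool.Agent.H905.WG.Final
import Pool.Agent.H905.WG.Zero3
import Pool.Agent.H905.WG.MA5

/-!
# The asymptotic expansion conjecture fails for Seifert manifolds over nonorientable surfaces of odd genus

Let `M(h, p, l, n)` be the closed orientable Seifert manifold whose base is the nonorientable surface of genus
`h` (the sum of `h` projective planes), with `p` pairs of exceptional fibres `(2, 1)`, `(2, -1)`, a pair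
`(a, 1)`, `(a, -1)` for each member `a` of the list `l`, and Euler number `n`. It is
obtained by surgery on the plumbing link of the tree `seifertTreeOf h p l n`; `seifertTree h p n` is the case `l = []`.
Let `h` be odd. The SU(2) invariants `Z_k`, `r = k + 2`, have no asymptotic expansion as in Q1, if `n ≠ 0`, the
`a` in `l` are odd, there is a pair of exceptional fibres of multiplicity two or `n` is odd, and
`h + 2 p + 2 (length of l) ≥ 5`. If `l = []`, there is no expansion if there is a pair of exceptional fibres (except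
perhaps for `h = 1`, `n = 0`, `p ≥ 2`) or if `h ≥ 3` and `n` is odd. Hansen proved the expansion for
all Seifert manifolds with orientable base or nonorientable base of even genus.

Proof. Each crosscap contributes `(-1) ^ (u + 1) / S_(1 u)` to the sum over the colour `u` of the central vertex,
and for `r = a s + 1` a pair `a`, `-a` of leaves contributes `(2 / r) sin (π u s / r) ^ 2 / S_(1 u) ^ 2` (`MA1`). So
the invariant is a sum with the singular factor `1 / sin (π u / r) ^ m`, `m = h + 2 p + 2 q - 2` odd, `q` the length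
of `l`, with periodic nonnegative weights, and the quadratic phase
`exp (π i n u ^ 2 / (2 r))`; near `u = r` the signs do not alternate. If `n ≠ 0`, the term `j ^ (m - 1)` in the Taylor
expansion of the phase, `u = r - j`, meets `j ^ (- m)`, and the sum of `1 / j` gives a logarithm of `r` which is not
compensated by the other end. If `m = 1` the logarithm is in the leading term, and one has to use the cancellation
of the phases for `j ^ 2 > r`. If `n = 0`, the logarithm comes from the coefficients of `1 / y` in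
`1 / (sin y ^ a cos y ^ b)`, `a`, `b` odd, which are positive (`Zero1`), so that the two ends do not cancel.
-/

set_option autoImplicit false

open H524R3 Pool.Agent.H905.WG

namespace Pool.Agent.Results.MP_1d444f_gt.NonzeroEulerNumbers

/-- The asymptotic expansion conjecture fails for G = SU(2), r = k + 2, and the following Seifert manifolds
over the nonorientable surface of odd genus h, in every 2-framing, that is also
after multiplication with phases exp (π i (α + β / r)):
1. the manifold M(h, p, l, n) of Euler number n ≠ 0 with p pairs of exceptional fibres (2, 1), (2, -1) and a pair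
(a, 1), (a, -1) for each a in the list l, all a in l odd, if p ≥ 1 or n is odd, and h + 2 p + 2 q ≥ 5, q being the
length of l. Moreover for all large r = 1 mod the product of the a in l (for all large r if l is empty)
exp (π i n / (2 r)) Z_k is a finite sum of
terms b r^e w^r plus c z^r r^(h + p + q - 3/2) log r plus O (r^(h + p + q - 3/2)), where c ≠ 0 and |z| = |w| = 1;
2. M(h, p, n) = M(h, p, [], n) if p ≥ 1 (unless h = 1, n = 0, p ≥ 2), or h ≥ 3 and n is odd;
3. if n = 0, h ≥ 3 and p ≥ 1 then for M(h, p, 0) moreover Z_k is a finite sum of terms b r^e w^r plus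
c (-1)^r r^(h/2) log r plus O (r^(h/2)), where c > 0 and |w| = 1;
4. for M(1, 1, n) and all n, also after multiplication with arbitrary numbers ω k of absolute value 1, and
|Z_k| = c r^(1/2) log r + O (r^(1/2)) with c = sqrt 2 / (2 π) for n ≠ 0 and c = sqrt 2 / π for n = 0 (the
Hantzsche-Wendt manifold);
5. for M(3, 0, n) and all odd n, also after multiplication with arbitrary numbers ω k of absolute value 1,
and |Z_k| = (1 / (2 sqrt 2 π)) r^(3/2) log r + O (r^(3/2)). -/
theorem result :
    (∀ (h p : ℕ) (l : List ℕ) (n : ℤ), Odd h → (∀ a ∈ l, Odd a ∧ 3 ≤ a) → n ≠ 0 → (1 ≤ p ∨ Odd n) →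
      5 ≤ h + 2 * p + 2 * l.length →
      (∀ α β : ℝ, ¬ HasExpansion 2 (fun k =>
        Complex.exp (Real.pi * Complex.I * (α + β / (k + 2))) * (seifertTreeOf h p l n).wrt (k + 2))) ∧
      ∃ (c z : ℂ) (N : ℕ) (b w : Fin N → ℂ) (e : Fin N → ℝ) (C : ℝ),
        c ≠ 0 ∧ ‖z‖ = 1 ∧ (∀ j, ‖w j‖ = 1) ∧ ∀ᶠ r : ℕ in Filter.atTop, l.prod ∣ r - 1 →
        ‖Complex.exp (Real.pi * Complex.I * (n / (2 * r))) * (seifertTreeOf h p l n).wrt r -
          ∑ j, b j * (((r : ℝ) ^ e j : ℝ) : ℂ) * w j ^ r -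
          c * z ^ r * (((r : ℝ) ^ ((h : ℝ) + p + l.length - 3 / 2) * Real.log r : ℝ) : ℂ)‖ ≤
          C * (r : ℝ) ^ ((h : ℝ) + p + l.length - 3 / 2)) ∧
    (∀ (h p : ℕ) (n : ℤ), Odd h → ((1 ≤ p ∧ (n ≠ 0 ∨ 3 ≤ h ∨ p = 1)) ∨ (3 ≤ h ∧ Odd n)) →
      ∀ α β : ℝ, ¬ HasExpansion 2 (fun k =>
        Complex.exp (Real.pi * Complex.I * (α + β / (k + 2))) * (seifertTree h p n).wrt (k + 2))) ∧
    (∀ h p : ℕ, Odd h → 3 ≤ h → 1 ≤ p →
      ∃ (c : ℝ) (N : ℕ) (b w : Fin N → ℂ) (e : Fin N → ℝ) (C : ℝ),
        0 < c ∧ (∀ j, ‖w j‖ = 1) ∧ ∀ᶠ r : ℕ in Filter.atTop,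
        ‖(seifertTree h p 0).wrt r - ∑ j, b j * (((r : ℝ) ^ e j : ℝ) : ℂ) * w j ^ r -
          (c : ℂ) * (-1) ^ r * (((r : ℝ) ^ ((h : ℝ) / 2) * Real.log r : ℝ) : ℂ)‖ ≤
          C * (r : ℝ) ^ ((h : ℝ) / 2)) ∧
    (∀ n : ℤ,
      (∃ C : ℝ, ∀ r : ℕ, 6 ≤ r →
        |‖(seifertTree 1 1 n).wrt r‖ -
          (if n = 0 then Real.sqrt 2 / Real.pi else Real.sqrt 2 / (2 * Real.pi)) *
            ((r : ℝ) ^ (1 / 2 : ℝ) * Real.log r)| ≤ C * (r : ℝ) ^ (1 / 2 : ℝ)) ∧
      ∀ ω : ℕ → ℂ, (∀ k, ‖ω k‖ = 1) → ¬ HasExpansion 2 (fun k => ω k * (seifertTree 1 1 n).wrt (k + 2))) ∧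
    (∀ n : ℤ, Odd n →
      (∃ C : ℝ, ∀ r : ℕ, 10 ≤ r →
        |‖(seifertTree 3 0 n).wrt r‖ - 1 / (2 * Real.sqrt 2 * Real.pi) *
            ((r : ℝ) ^ (3 / 2 : ℝ) * Real.log r)| ≤ C * (r : ℝ) ^ (3 / 2 : ℝ)) ∧
      ∀ ω : ℕ → ℂ, (∀ k, ‖ω k‖ = 1) →
        ¬ HasExpansion 2 (fun k => ω k * (seifertTree 3 0 n).wrt (k + 2))) := by
  refine ⟨fun h p l n hh hl hn hc h5 => ⟨fun α β => no_exp_L h p hh l hl h5 n hn hc α β,
      log_L' h p hh l hl h5 n hn hc⟩,
    fun h p n hh hc α β => no_exp_total h p n hh hc α β,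
    fun h p hh h3 hp => log_zero' h p hh h3 hp,
    fun n => ⟨⟨_, fun r hr => one_final n r hr⟩, one_no n⟩,
    fun n hn => ⟨⟨_, fun r hr => three_final n hn r hr⟩, three_no n hn⟩⟩

end Pool.Agent.Results.MP_1d444f_gt.NonzeroEulerNumbers
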