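import Mathlib
import Pool.Agent.H572.AE.STAR6
import Pool.Agent.H572.AE.GEO
import Pool.Agent.H572.AE.FE2O
import Pool.Agent.H572.AE.FE4
import Pool.Agent.H572.AE.FE4O

/-!
# The SU(2) invariants of the graph manifolds of the star graphs

`H572AE.star g h σ` is the plumbing tree with a vertex of genus g and Euler number 0 which is joined by one edge
to each of n vertices of genera h i ≥ 1 and Euler number 0, with the signs σ of the edges. Its 3-manifold is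
obtained from F × S^1, F the surface of genus g with n boundary circles, by gluing to its i-th boundary torus a
copy of F_i × S^1, F_i the surface of genus h i with one boundary circle, exchanging the fibre and the boundary
of the base.
-/

set_option autoImplicit false

open Finset Polynomial

namespace Pool.Agent.Results.MP_1d444f_gt.StarGraphs

theorem result (g n : ℕ) (h : Fin n → ℕ) (σ : Fin n → Bool) (hn : 1 ≤ n) (hh : ∀ i, 1 ≤ h i) :
    ((∃ ω : ℕ → ℂ, (∀ k, ‖ω k‖ = 1) ∧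
        H524R3.HasExpansion 2 (fun k => ω k * (H572AE.star g h σ).Z 2 (k + 2))) ↔
      (g = 0 ∧ n ≤ 2)) ∧
    (g = 0 ∧ n ≤ 2 → H524R3.HasExpansion 2 (fun k => (H572AE.star g h σ).Z 2 (k + 2))) ∧
    (¬ (g = 0 ∧ n ≤ 2) → ∃ (Λ : ℝ[X]) (c : ℕ → ℕ → ℝ), Λ.coeff (n + 1) ≠ 0 ∧
      (∀ j, Λ.coeff j ≠ 0 → n + 1 ≤ j ∧ j ≤ 2 * (∑ i, h i) - n + 1) ∧
      ∀ L : ℕ, ∃ B : ℝ, ∀ r : ℕ, 2 ≤ r →
        ‖(H572AE.star g h σ).Z 2 r -
          ((Real.sqrt ((r : ℝ) / 2) ^ (2 * g + 2 * (∑ i, h i) - n - 2) * (Λ.eval (r : ℝ) * Real.log r +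
            ∑ l ∈ range L, c (r % 2) l *
              (r : ℝ) ^ ((2 * g + 2 * (∑ i, h i) - 2 : ℕ) - (l : ℤ))) : ℝ) : ℂ)‖ ≤
        B * (Real.sqrt ((r : ℝ) / 2) ^ (2 * g + 2 * (∑ i, h i) - n - 2) *
          (r : ℝ) ^ ((2 * g + 2 * (∑ i, h i) - 2 : ℕ) - (L : ℤ)))) := by
  have hS1 : ∑ i, (2 * h i - 1) + n = 2 * ∑ i, h i := by
    have e1 : ∑ i, ((2 * h i - 1) + 1) = ∑ i, (2 * h i - 1) + n := by
      rw [Finset.sum_add_distrib]; simp
    rw [← e1, Finset.mul_sum]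
    exact Finset.sum_congr rfl fun i _ => by have := hh i; omega
  have hS2 : ∑ i, 2 * (h i - 1) + 2 * n = 2 * ∑ i, h i := by
    have e1 : ∑ i, (2 * (h i - 1) + 2) = ∑ i, 2 * (h i - 1) + 2 * n := by
      rw [Finset.sum_add_distrib]; simp [mul_comm]
    rw [← e1, Finset.mul_sum]
    exact Finset.sum_congr rfl fun i _ => by have := hh i; omega
  have hex : ¬ (g = 0 ∧ n ≤ 2) → ∃ Λ : ℝ[X], Λ.coeff (n + 1) ≠ 0 ∧
      (∀ j, Λ.coeff j ≠ 0 → n + 1 ≤ j ∧ j ≤ 1 + ∑ i, (2 * h i - 1)) ∧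
      H572AE.FEN 2 (2 * g + n - 2 + ∑ i, (2 * h i - 1))
        (fun r => H572AE.STAR.TG (2 * g + n - 2) h r - Λ.eval (r : ℝ) * Real.log r) := by
    intro hne
    exact H572AE.STAR.expansion2 H572AE.FE2O.main H572AE.FE4.main H572AE.FE4O.main H572AE.GEO.main g n h hh hn
      (by omega)
  have hpos : g = 0 ∧ n ≤ 2 → H524R3.HasExpansion 2 (fun k => (H572AE.star g h σ).Z 2 (k + 2)) :=
    H572AE.STAR.pos2 g n h hh σ hn
  refine ⟨⟨?_, ?_⟩, hpos, ?_⟩
  · rintro ⟨ω, hω, hexp⟩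
    by_contra hne
    obtain ⟨Λ, hΛ, -, hF⟩ := hex hne
    have h0 : Λ ≠ 0 := by
      rintro rfl
      exact hΛ (coeff_zero _)
    have h1 : 1 ≤ Λ.natDegree := le_trans (by omega) (le_natDegree_of_ne_zero hΛ)
    obtain ⟨P, Q, B, hB⟩ := H572AE.STAR.three_terms2 _ _ Λ h1 hF
    refine H572AE.STAR.no_exp_gen ((2 * g + n - 2 + ∑ i, 2 * (h i - 1) : ℕ) : ℤ) _ P Q Λ.leadingCoeff B
      Λ.natDegree (leadingCoeff_ne_zero.2 h0) hB
      (fun r => (H572AE.star g h σ).Z 2 r) (fun r hr => ?_) ω hω hexp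
    rw [H572AE.STAR.state2 g n h hh σ r hr hn (by omega), zpow_natCast]
  · intro hp
    refine ⟨fun _ => 1, fun _ => by simp, ?_⟩
    have := hpos hp
    simpa using this
  · intro hne
    obtain ⟨Λ, hΛ, hΛ2, c, hc⟩ := hex hne
    refine ⟨Λ, c, hΛ, fun j hj => ?_, fun L => ?_⟩
    · have := hΛ2 j hj
      omega
    obtain ⟨B, hB⟩ := hc L
    refine ⟨B, fun r hr => ?_⟩
    have hE : 2 * g + 2 * (∑ i, h i) - n - 2 = 2 * g + n - 2 + ∑ i, 2 * (h i - 1) := by omega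
    have hD : 2 * g + 2 * (∑ i, h i) - 2 = 2 * g + n - 2 + ∑ i, (2 * h i - 1) := by omega
    rw [hE, hD]
    have hs : 0 ≤ Real.sqrt ((r : ℝ) / 2) ^ (2 * g + n - 2 + ∑ i, 2 * (h i - 1)) := by positivity
    rw [H572AE.STAR.state2 g n h hh σ r hr hn (by omega), ← Complex.ofReal_sub, Complex.norm_real,
      Real.norm_eq_abs, ← mul_sub, abs_mul, abs_of_nonneg hs, mul_left_comm B]
    refine mul_le_mul_of_nonneg_left ?_ hs
    rw [← sub_sub]
    exact hB r (by omega)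

end Pool.Agent.Results.MP_1d444f_gt.StarGraphs
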