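import Mathlib
import Pool.Agent.H572.AE.Main
import Pool.Agent.H572.AE.ASYO
import Pool.Agent.H572.AE.PHO
import Pool.Agent.H572.AE.PHE
import Pool.Agent.H572.AE.EVO
import Pool.Agent.H572.AE.CSC2
import Pool.Agent.H572.AE.PS2
import Pool.Agent.H572.AE.SINO
import Pool.Agent.H572.AE.STS
import Pool.Agent.H572.AE.TRACE

/-!
# Asymptotic expansions of the SU(2) invariants of the graph manifolds with two vertices

`H572AE.twoGraph g h σ` is the plumbing graph with two vertices of genera g and h and Euler number 0 and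
m edges joining them, with the signs σ. Its 3-manifold is the union of F × S^1 and F' × S^1, where F and F'
are the compact surfaces of genera g and h with m boundary circles, glued along their m boundary tori by
exchanging the fibre and the boundary of the base. If the numbers of positive and of negative edges are
equal, it is the mapping torus of the product of Dehn twists (positive or negative according to σ) along m
disjoint curves which cut the closed surface of genus g + h + m - 1 into the pieces F and F', and its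
invariant is the trace `H572AE.twistTrace g h σ r` of the quantum representation; this multitwist is trivial
if and only if m = 2 and g h = 0.
-/

set_option autoImplicit false

open Polynomial

namespace Pool.Agent.Results.MP_1d444f_gt.TwoVertexGraphs

theorem result (g h m : ℕ) (σ : Fin m → Bool) (hm : 1 ≤ m) :
    ((∃ ω : ℕ → ℂ, (∀ k, ‖ω k‖ = 1) ∧
        H524R3.HasExpansion 2 (fun k => ω k * (H572AE.twoGraph g h σ).Z 2 (k + 2))) ↔
      (m ≤ 2 ∧ g * h = 0)) ∧
    ((m ≤ 2 ∧ g * h = 0) →
        H524R3.HasExpansion 2 (fun k => (H572AE.twoGraph g h σ).Z 2 (k + 2))) ∧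
    (¬ (m ≤ 2 ∧ g * h = 0) → ∃ (P Q : ℝ[X]) (K B : ℝ), K ≠ 0 ∧ (Even m → Q = 0) ∧
      (Even m → (g ≠ h ∨ 2 ≤ g) → 2 * min g h + m - 1 < P.natDegree) ∧
      ∀ r : ℕ, 2 ≤ r →
        ‖(H572AE.twoGraph g h σ).Z 2 r -
          ((Real.sqrt ((r : ℝ) / 2) ^ (2 * (g : ℤ) + 2 * (h : ℤ) + (m : ℤ) - 4) *
            (P.eval (r : ℝ) + (-1) ^ r * Q.eval (r : ℝ) +
              K * (r : ℝ) ^ (2 * min g h + m - 1) * Real.log r) : ℝ) : ℂ)‖ ≤
        B * (Real.sqrt ((r : ℝ) / 2) ^ (2 * (g : ℤ) + 2 * (h : ℤ) + (m : ℤ) - 4) *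
          (r : ℝ) ^ (2 * min g h + m - 1))) ∧
    ((Finset.univ.filter fun i => σ i = true).card = (Finset.univ.filter fun i => σ i = false).card →
      ∀ r : ℕ, 2 ≤ r → H572AE.twistTrace g h σ r = (H572AE.twoGraph g h σ).Z 2 r) := by
  have hO : H572AE.S_asyo := H572AE.ASYO.main H572AE.PHO.main
    (H572AE.PHE.main H572AE.PHO.main (H572AE.CP.main H572AE.PH.main H572AE.EO.main) H572AE.EVO.main)
    H572AE.EVO.main (H572AE.CP.main H572AE.PH.main H572AE.EO.main) H572AE.CSC2.main H572AE.PS2.main
    H572AE.SINO.main H572AE.NV.main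
  refine ⟨⟨?_, ?_⟩, ?_, ?_, fun hbal r hr => H572AE.TRACE.main H572AE.STS.main g h m σ r hr hbal⟩
  · rintro ⟨ω, hω, hexp⟩
    by_contra hne
    exact H572AE.MAIN.no_exp hO g h m σ hm hne ω hω hexp
  · intro hp
    refine ⟨fun _ => 1, fun _ => by simp, ?_⟩
    have := H572AE.MAIN.pos g h m σ hm hp
    simpa using this
  · exact H572AE.MAIN.pos g h m σ hm
  · intro hne
    obtain ⟨P, Q, K, B, hK, h1, h2, hB⟩ := H572AE.MAIN.unif hO g h m hm hne
    refine ⟨P, Q, K, B, hK, h1, h2, fun r hr => ?_⟩
    have hg : 2 ≤ 2 * g + m := by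
      by_contra hcon
      have h1 : g = 0 := by omega
      have h2 : m = 1 := by omega
      exact hne ⟨by omega, by rw [h1, zero_mul]⟩
    have hh : 2 ≤ 2 * h + m := by
      by_contra hcon
      have h1 : h = 0 := by omega
      have h2 : m = 1 := by omega
      exact hne ⟨by omega, by rw [h1, mul_zero]⟩
    have hs : 0 ≤ Real.sqrt ((r : ℝ) / 2) ^ (2 * (g : ℤ) + 2 * (h : ℤ) + (m : ℤ) - 4) := by positivity
    rw [H572AE.RED2.main g h m σ r hr hg hh, ← Complex.ofReal_sub, Complex.norm_real, Real.norm_eq_abs,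
      ← mul_sub, abs_mul, abs_of_nonneg hs, mul_left_comm B]
    exact mul_le_mul_of_nonneg_left (hB r hr) hs

end Pool.Agent.Results.MP_1d444f_gt.TwoVertexGraphs
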