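import Mathlib
import Pool.Agent.H572.AE.FEE
import Pool.Agent.H572.AE.FEO
import Pool.Agent.H572.AE.GE
import Pool.Agent.H572.AE.GEO
import Pool.Agent.H572.AE.FE2
import Pool.Agent.H572.AE.FE2O
import Pool.Agent.H572.AE.FE4
import Pool.Agent.H572.AE.FE4O
import Pool.Agent.H572.AE.RED2

/-!
# The full asymptotic expansions of the SU(2) invariants of the graph manifolds with two vertices

`H572AE.twoGraph g h σ` is the plumbing graph with two vertices of genera g and h and Euler number 0 and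
m edges joining them, with the signs σ. Outside the case m ≤ 2, g h = 0 its SU(2) invariant, r = k + 2, has a
full asymptotic expansion with one polynomial times log r, and otherwise powers of r with coefficients that
depend only on r modulo (m/2)! for m even, modulo 2 m! for m odd.
-/

set_option autoImplicit false

open Finset Polynomial

namespace Pool.Agent.Results.MP_1d444f_gt.TwoVertexLogExpansion

theorem aux (g h m : ℕ) (hm : 1 ≤ m) (hne : ¬ (m ≤ 2 ∧ g * h = 0)) :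
    ∃ Λ : ℝ[X], Λ.natDegree = 2 * min g h + m - 1 ∧
      H572AE.FEN (if m % 2 = 0 then (m / 2).factorial else 2 * m.factorial) (2 * g + 2 * h + 2 * m - 4)
        (fun r => H572AE.TT m (2 * g + m - 2) (2 * h + m - 2) r - Λ.eval (r : ℝ) * Real.log r) := by
  have hg : m ≤ 2 → 1 ≤ g := fun h2 => by
    by_contra hcon
    exact hne ⟨h2, by rw [show g = 0 by omega, zero_mul]⟩
  have hh : m ≤ 2 → 1 ≤ h := fun h2 => by
    by_contra hcon
    exact hne ⟨h2, by rw [show h = 0 by omega, mul_zero]⟩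
  rcases Nat.even_or_odd' m with ⟨k, hk | hk⟩
  · obtain ⟨Λ, hΛ, hF⟩ := H572AE.FEE.main H572AE.FE2.main H572AE.FE4.main H572AE.GE.main k (g + k - 1)
      (h + k - 1) (by omega) (by omega) (by omega) (by omega) (by omega)
    refine ⟨Λ, by rw [hΛ]; omega, ?_⟩
    rw [if_pos (by omega), show m / 2 = k by omega,
      show 2 * g + 2 * h + 2 * m - 4 = 2 * (g + k - 1) + 2 * (h + k - 1) by omega,
      show 2 * g + m - 2 = 2 * (g + k - 1) by omega, show 2 * h + m - 2 = 2 * (h + k - 1) by omega, hk]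
    exact hF
  · obtain ⟨Λ, hΛ, hF⟩ := H572AE.FEO.main H572AE.FE2O.main H572AE.FE4O.main H572AE.GEO.main k (g + k)
      (h + k) (by omega) (by omega) (by omega) (by omega)
    refine ⟨Λ, by rw [hΛ]; omega, ?_⟩
    rw [if_neg (by omega),
      show 2 * g + 2 * h + 2 * m - 4 = 2 * (g + k) + 2 * (h + k) - 2 by omega,
      show 2 * g + m - 2 = 2 * (g + k) - 1 by omega, show 2 * h + m - 2 = 2 * (h + k) - 1 by omega, hk]
    exact hF

theorem result (g h m : ℕ) (σ : Fin m → Bool) (hm : 1 ≤ m) (hne : ¬ (m ≤ 2 ∧ g * h = 0)) :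
    ∃ (Λ : ℝ[X]) (c : ℕ → ℕ → ℝ), Λ.natDegree = 2 * min g h + m - 1 ∧
      ∀ L : ℕ, ∃ B : ℝ, ∀ r : ℕ, 2 ≤ r →
        ‖(H572AE.twoGraph g h σ).Z 2 r -
          ((Real.sqrt ((r : ℝ) / 2) ^ (2 * (g : ℤ) + 2 * (h : ℤ) + (m : ℤ) - 4) *
            (Λ.eval (r : ℝ) * Real.log r +
              ∑ l ∈ range L, c (r % (if m % 2 = 0 then (m / 2).factorial else 2 * m.factorial)) l *
                (r : ℝ) ^ ((2 * g + 2 * h + 2 * m - 4 : ℕ) - (l : ℤ))) : ℝ) : ℂ)‖ ≤
        B * (Real.sqrt ((r : ℝ) / 2) ^ (2 * (g : ℤ) + 2 * (h : ℤ) + (m : ℤ) - 4) *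
          (r : ℝ) ^ ((2 * g + 2 * h + 2 * m - 4 : ℕ) - (L : ℤ))) := by
  obtain ⟨Λ, hΛ, c, hc⟩ := aux g h m hm hne
  refine ⟨Λ, c, hΛ, fun L => ?_⟩
  obtain ⟨B, hB⟩ := hc L
  refine ⟨B, fun r hr => ?_⟩
  have hg : 2 ≤ 2 * g + m := by
    by_contra hcon
    have h1 : g = 0 := by omega
    exact hne ⟨by omega, by rw [h1, zero_mul]⟩
  have hh : 2 ≤ 2 * h + m := by
    by_contra hcon
    have h1 : h = 0 := by omega
    exact hne ⟨by omega, by rw [h1, mul_zero]⟩
  have hs : 0 ≤ Real.sqrt ((r : ℝ) / 2) ^ (2 * (g : ℤ) + 2 * (h : ℤ) + (m : ℤ) - 4) := by positivity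
  rw [H572AE.RED2.main g h m σ r hr hg hh, ← Complex.ofReal_sub, Complex.norm_real, Real.norm_eq_abs,
    ← mul_sub, abs_mul, abs_of_nonneg hs, mul_left_comm B]
  refine mul_le_mul_of_nonneg_left ?_ hs
  rw [← sub_sub]
  exact hB r (by omega)

end Pool.Agent.Results.MP_1d444f_gt.TwoVertexLogExpansion
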